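import Pool.Agent.H.MP_92a93b_gt.helper19.Plane

/-!
A complete plane without conjugate points in which two disjoint geodesics are asymptotic at both
ends.
-/

set_option autoImplicit false
open Filter Topology
open scoped ContDiff

namespace Pool.Agent.Results.MP_92a93b_gt.BothEnds

open Pool.Agent.H.MP_92a93b_gt Pool.Agent.H.MP_92a93b_gt.Plane

/-- There is a smooth function `A` with `1/20 ≤ A ≤ 1` and `A = 1` on the negative half line such
that the plane with the Riemannian metric `A(z)^2 dz^2 + exp(-2z) dy^2` (the hyperbolic plane for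
`A = 1`) is complete, all its geodesics are globally minimizing and without conjugate points, and it
contains two disjoint unit-speed geodesics `α`, `β` with
`dist(α(t), β(t)) → 0` for `t → -∞`, with `dist(α(t), β(t))` bounded, and even with
`dist(α(t + c), β(t)) → 0` for `t → +∞` and a constant `c`. -/
theorem result : ∃ A B : ℝ → ℝ, ContDiff ℝ ∞ A ∧ (∀ z, 1 / 20 ≤ A z ∧ A z ≤ 1) ∧
    (∀ z ≤ 0, A z = 1) ∧ (∀ z, B z = Real.exp (-z)) ∧ CompletePlane A B ∧
    (∀ γ, Geodesic A B γ → NoConjugatePoints A B γ ∧ ∀ s u, rdist A B (γ s) (γ u) = |s - u|) ∧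
    ∃ α β : ℝ → ℝ × ℝ, Geodesic A B α ∧ Geodesic A B β ∧ (∀ s t, α s ≠ β t) ∧
      Tendsto (fun t => rdist A B (α t) (β t)) atBot (𝓝 0) ∧
      (∃ C, ∀ t, rdist A B (α t) (β t) ≤ C) ∧
      ∃ c, Tendsto (fun t => rdist A B (α (t + c)) (β t)) atTop (𝓝 0) := by
  refine ⟨rho, eB, rho_smooth, fun z => ⟨rho_ge z, rho_le_one z⟩, fun z hz => rho_one hz,
    fun z => rfl, ?_, ?_, fun t => (zc (alp t), yc (alp t)), fun t => (zc (bet t), yc (bet t)),
    ?_, ?_, ?_, ?_, ?_, 2 * kk, ?_⟩
  · intro p hp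
    have hc : CauchySeq (fun n => P (p n)) := by
      rw [Metric.cauchySeq_iff]
      intro ε hε
      obtain ⟨N, hN⟩ := hp ε hε
      refine ⟨N, fun m hm n hn => ?_⟩
      rw [← rdist_eq]
      exact hN m hm n hn
    obtain ⟨x, hx⟩ := cauchySeq_tendsto_of_complete hc
    refine ⟨(zc x, yc x), ?_⟩
    have := tendsto_iff_dist_tendsto_zero.1 hx
    refine this.congr fun n => ?_
    rw [rdist_eq, P_coord]
  · intro γ hγ
    obtain ⟨l, hl, hl2⟩ := geodesic_line hγ
    refine ⟨noconj_line hl hl2, fun s u => ?_⟩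
    rw [rdist_eq, hl2, hl2]
    exact hl.dist_eq s u
  · intro t
    refine ⟨1, one_pos, fun s u _ _ => ?_⟩
    rw [rdist_eq, P_coord, P_coord]
    exact alp_line.dist_eq s u
  · intro t
    refine ⟨1, one_pos, fun s u _ _ => ?_⟩
    rw [rdist_eq, P_coord, P_coord]
    exact bet_line.dist_eq s u
  · intro s t h
    apply disjoint_lines s t
    rw [← P_coord (alp s), ← P_coord (bet t)]
    exact congrArg P h
  · refine dist_bot.congr fun t => ?_
    rw [rdist_eq, P_coord, P_coord]
  · obtain ⟨C, hC⟩ := bounded_all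
    refine ⟨C, fun t => ?_⟩
    rw [rdist_eq, P_coord, P_coord]
    exact hC t
  · refine shift_top.congr fun t => ?_
    rw [rdist_eq, P_coord, P_coord]

end Pool.Agent.Results.MP_92a93b_gt.BothEnds
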